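import Pool.Agent.Q260.DJ.Den
import Pool.Agent.Q239.DJ.LC
import Pool.Agent.Q177.DJ.CP
import Pool.Agent.Q187.DJ.ES

/-!
# The density hypothesis, derivatives of `ξ` and Jensen shifts

Let `ξ(s) = s (s - 1) π^(-s/2) Γ(s/2) ζ(s) / 2` and `8 ξ(1/2 + z) = ∑ γ(k) z^(2k) / k!`.  Differentiation moves the zeros
towards the critical line (almost all zeros of `ξ^(n)` are on it for large `n`), and the same is true for the shifts
`Φ_n(z) = ∑ γ(n+k) z^(2k) / k!`, whose zeros decide whether the Jensen polynomials of shift `n` have only real zeros.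

We prove that for every single `n` zero density estimates for `F = ξ^(n)`, or `F(s) = Φ_n(s - 1/2)`, are equivalent
to the same estimates for `ζ`, for every continuous exponent.  In particular the density hypothesis for `ζ` is the
density hypothesis for the zeros of `ξ^(n)`, for any one `n`.  The numbers `N_F(σ, T)` satisfy unconditionally
`N_F(σ + ε, T) ≤ C log² T (N_ζ(σ, T + C log T) + 1)` and conversely.
-/

set_option autoImplicit false

open Complex Filter Topology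

namespace Pool.Agent.Results.MP_4467b5_nt.DensityOfDerivatives

/-- The Riemann function `ξ(s) = s (s - 1) Λ(s) / 2`, `Λ(s) = π^(-s/2) Γ(s/2) ζ(s) = Λ₀(s) - 1/s - 1/(1-s)`. -/
noncomputable def xi (s : ℂ) : ℂ := s * (s - 1) / 2 * completedRiemannZeta₀ s + 1 / 2

/-- The coefficients `γ(k)` in `8 ξ(1/2 + z) = ∑ γ(k) z^(2k) / k!`. -/
noncomputable def γ (k : ℕ) : ℝ :=
  (k.factorial : ℝ) / ((2 * k).factorial : ℝ) * (iteratedDeriv (2 * k) (fun z : ℂ => 8 * xi (1 / 2 + z)) 0).re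

/-- The shifted function `Φ_n(z) = ∑ γ(n+k) z^(2k) / k!`; `Φ_0(z) = 8 ξ(1/2 + z)`. -/
noncomputable def Φ (n : ℕ) (z : ℂ) : ℂ := ∑' k : ℕ, ((γ (n + k) : ℝ) : ℂ) / (k.factorial : ℂ) * z ^ (2 * k)

/-- The functions `F`: a derivative `ξ^(n)`, or `F(s) = Φ_n(s - 1/2)`. -/
def Member (F : ℂ → ℂ) : Prop := ∃ n : ℕ, F = iteratedDeriv n xi ∨ F = fun s => Φ n (s - 1 / 2)

/-- `N(σ, T)`: the number of zeros of zeta, with multiplicity, with `Re s ≥ σ` and `0 < Im s ≤ T`. -/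
noncomputable def N (σ T : ℝ) : ℕ :=
  ∑ᶠ s ∈ {s : ℂ | riemannZeta s = 0 ∧ σ ≤ s.re ∧ 0 < s.im ∧ s.im ≤ T}, analyticOrderNatAt riemannZeta s

/-- The density hypothesis (Q1). -/
def DensityHypothesis : Prop := ∀ ε : ℝ, 0 < ε → ∃ C T₀ : ℝ, 0 < C ∧ 0 < T₀ ∧ ∀ T : ℝ, T₀ ≤ T →
  ∀ σ : ℝ, 1 / 2 ≤ σ → σ ≤ 1 → (N σ T : ℝ) ≤ C * T ^ (2 * (1 - σ) + ε)

/-- The number of zeros of `F`, with multiplicity, with `Re s ≥ σ` and `0 < Im s ≤ T`. -/
noncomputable def NF (F : ℂ → ℂ) (σ T : ℝ) : ℕ :=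
  ∑ᶠ s ∈ {s : ℂ | F s = 0 ∧ σ ≤ s.re ∧ 0 < s.im ∧ s.im ≤ T}, analyticOrderNatAt F s

/-- The density estimate with exponent `A` for the zeros of `F`, uniformly for `1/2 ≤ σ ≤ 1`. -/
def Estimate (F : ℂ → ℂ) (A : ℝ → ℝ) : Prop := ∀ ε : ℝ, 0 < ε → ∃ C T₀ : ℝ, 0 < C ∧ 0 < T₀ ∧ ∀ T : ℝ, T₀ ≤ T →
  ∀ σ : ℝ, 1 / 2 ≤ σ → σ ≤ 1 → (NF F σ T : ℝ) ≤ C * T ^ (A σ + ε)

open Pool.Agent.Q260.DJ (Rep rep_false rep_true S_LC S_CP S_ES)
open Pool.Agent.H24R2.JP (XX gam)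

lemma xi_eq : xi = Pool.Agent.H24R2.JP.xi := rfl

lemma XX_xi : (fun z : ℂ => 8 * xi (1 / 2 + z)) = XX := by
  funext z
  unfold xi XX
  ring

lemma gam_eq : γ = gam := by
  funext k
  unfold γ gam
  rw [XX_xi]

lemma Φ_eq (n : ℕ) : Φ n = Pool.Agent.Q260.DJ.Ph n := by
  funext z
  unfold Φ Pool.Agent.Q260.DJ.Ph
  rw [gam_eq]

lemma member_rep {F : ℂ → ℂ} (h : Member F) : ∃ (l : List Bool) (G : ℂ → ℂ), Rep l F G := by
  obtain ⟨n, rfl | rfl⟩ := h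
  · rw [xi_eq]
    exact ⟨_, _, rep_false n⟩
  · rw [Φ_eq]
    exact ⟨_, _, rep_true n⟩

lemma NF_eq : NF = Pool.Agent.Q260.DJ.right := rfl

lemma est_eq (F : ℂ → ℂ) (A : ℝ → ℝ) : Estimate F A ↔ Pool.Agent.Q260.DJ.Estimate F A := Iff.rfl

lemma dh_eq : DensityHypothesis ↔ Pool.Agent.Q260.DJ.Estimate riemannZeta (fun σ => 2 * (1 - σ)) := Iff.rfl

/-- The sets of zeros that are counted are finite. -/
theorem finite_zeros {F : ℂ → ℂ} (h : Member F) (σ T : ℝ) :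
    {s : ℂ | F s = 0 ∧ σ ≤ s.re ∧ 0 < s.im ∧ s.im ≤ T}.Finite := by
  obtain ⟨l, G, r⟩ := member_rep h
  have h1 := (Pool.Agent.Q177.DJ.rep_en r).fin (σ - 1 / 2) T
  refine (h1.image fun z => z + 1 / 2).subset ?_
  rintro s ⟨h2, h3, h4, h5⟩
  obtain ⟨c, hc, hs⟩ := r.shift
  refine ⟨s - 1 / 2, ⟨?_, ?_, ?_, ?_⟩, by show s - 1 / 2 + 1 / 2 = s; ring⟩
  · rw [hs] at h2
    exact (mul_eq_zero.1 h2).resolve_left hc
  · rw [Complex.sub_re, Pool.Agent.Q260.DJ.half_re]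
    linarith
  · rw [Complex.sub_im, Pool.Agent.Q260.DJ.half_im, sub_zero]
    exact h4
  · rw [Complex.sub_im, Pool.Agent.Q260.DJ.half_im, sub_zero]
    exact h5

lemma lc : S_LC := Pool.Agent.Q239.DJ.t_LC
lemma cp : S_CP := Pool.Agent.Q177.DJ.t_CP lc
lemma es : S_ES := Pool.Agent.Q187.DJ.t_ES lc cp

/-- For every `n` and `F = ξ^(n)`, or `F(s) = Φ_n(s - 1/2)`: (1) the density hypothesis holds if and only if it
holds for the zeros of `F`; (2) comparison of the numbers of zeros; (3) all density estimates carry over. -/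
theorem result (F : ℂ → ℂ) (hF : Member F) :
    (DensityHypothesis ↔ Estimate F fun σ => 2 * (1 - σ)) ∧
    (∀ ε : ℝ, 0 < ε → ∃ C : ℝ, 0 < C ∧ ∀ σ T : ℝ, 1 / 2 ≤ σ → 2 ≤ T →
      (NF F (σ + ε) T : ℝ) ≤ C * Real.log T ^ 2 * (N σ (T + C * Real.log T) + 1) ∧
      (N (σ + ε) T : ℝ) ≤ C * Real.log T ^ 2 * (NF F σ (T + C * Real.log T) + 1)) ∧
    (∀ A : ℝ → ℝ, ContinuousOn A (Set.Icc (1 / 2) 1) → (∀ x ∈ Set.Icc (1 / 2 : ℝ) 1, 0 ≤ A x) → 1 ≤ A (1 / 2) →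
      (Estimate F A ↔ Estimate riemannZeta A)) := by
  obtain ⟨l, G, r⟩ := member_rep hF
  refine ⟨?_, fun ε hε => ?_, fun A h1 h2 h3 => es l F G r A h1 h2 h3⟩
  · rw [dh_eq, est_eq]
    refine (es l F G r (fun σ => 2 * (1 - σ)) (by fun_prop) (fun x hx => ?_) (by norm_num)).symm
    have := hx.2
    show 0 ≤ 2 * (1 - x)
    linarith
  · obtain ⟨h1, h2⟩ := cp l F G r
    obtain ⟨C1, hC1, H1⟩ := h1 ε hε
    obtain ⟨C2, hC2, H2⟩ := h2 ε hε
    have key : ∀ (K : ℂ → ℂ) (σ T T' : ℝ), {s : ℂ | K s = 0 ∧ σ ≤ s.re ∧ 0 < s.im ∧ s.im ≤ T'}.Finite → T ≤ T' →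
        NF K σ T ≤ NF K σ T' := by
      intro K σ T T' hK hT
      have hK' : {s : ℂ | K s = 0 ∧ σ ≤ s.re ∧ 0 < s.im ∧ s.im ≤ T}.Finite :=
        hK.subset fun s hs => ⟨hs.1, hs.2.1, hs.2.2.1, hs.2.2.2.trans hT⟩
      unfold NF
      rw [finsum_mem_eq_finite_toFinset_sum _ hK', finsum_mem_eq_finite_toFinset_sum _ hK]
      refine Finset.sum_le_sum_of_subset fun s hs => ?_
      rw [Set.Finite.mem_toFinset] at hs ⊢
      exact ⟨hs.1, hs.2.1, hs.2.2.1, hs.2.2.2.trans hT⟩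
    refine ⟨max C1 C2, lt_max_of_lt_left hC1, fun σ T hσ hT => ⟨?_, ?_⟩⟩
    · have hl : 0 ≤ Real.log T := Real.log_nonneg (by linarith)
      refine (H1 σ T hσ hT).trans ?_
      have h3 : (NF riemannZeta σ (T + C1 * Real.log T) : ℝ) ≤ NF riemannZeta σ (T + max C1 C2 * Real.log T) := by
        exact_mod_cast key riemannZeta σ _ _
          ((Pool.Agent.Q187.DJ.fin_zeta (T + max C1 C2 * Real.log T)).subset fun s hs =>
            ⟨hs.1, hσ.trans hs.2.1, hs.2.2.1, hs.2.2.2⟩)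
          (by linarith [mul_le_mul_of_nonneg_right (le_max_left C1 C2) hl])
      have h4 : C1 * Real.log T ^ 2 ≤ max C1 C2 * Real.log T ^ 2 :=
        mul_le_mul_of_nonneg_right (le_max_left _ _) (sq_nonneg _)
      refine mul_le_mul h4 ?_ (by positivity) (by positivity)
      show (NF riemannZeta σ (T + C1 * Real.log T) : ℝ) + 1 ≤ NF riemannZeta σ (T + max C1 C2 * Real.log T) + 1
      linarith
    · have hl : 0 ≤ Real.log T := Real.log_nonneg (by linarith)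
      refine (H2 σ T hσ hT).trans ?_
      have h3 : (NF F σ (T + C2 * Real.log T) : ℝ) ≤ NF F σ (T + max C1 C2 * Real.log T) := by
        exact_mod_cast key F σ _ _ (finite_zeros hF σ _)
          (by linarith [mul_le_mul_of_nonneg_right (le_max_right C1 C2) hl])
      have h4 : C2 * Real.log T ^ 2 ≤ max C1 C2 * Real.log T ^ 2 :=
        mul_le_mul_of_nonneg_right (le_max_right _ _) (sq_nonneg _)
      refine mul_le_mul h4 ?_ (by positivity) (by positivity)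
      show (NF F σ (T + C2 * Real.log T) : ℝ) + 1 ≤ NF F σ (T + max C1 C2 * Real.log T) + 1
      linarith

end Pool.Agent.Results.MP_4467b5_nt.DensityOfDerivatives
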