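import Pool.Agent.Q240.LV.All

set_option autoImplicit false

/-!
# MP_4467b5_nt: zero density theorems are estimates for the large values of prime sums

Let `E s t u` be the error term in the prime number theorem, twisted with `n^(-i t)` and localised near `n = e^u` with the Gaussian density of variance `2 s`:
`E s t u = ∑ Λ(n) n^(-1/2 - i t) G_s (log n - u) - ∫_0^∞ y^(-1/2 - i t) G_s (log y - u) dy`.
Let `X = exp (2 a) = T ^ C`, `s = l a`, where `l` is small and fixed and `C` is large and fixed.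

* (1) Every zero `ρ` of zeta with `Re ρ ≥ 1/2 + δ`, `|Im ρ| ≤ T` gives a large value: `|E| ≥ X ^ (Re ρ - 1/2 - δ)` at some `t` with `|t - Im ρ| ≤ 1` and some `u` in `[a, 2 a]`.
* (2) Every large value comes from a zero: if `|E| ≥ X ^ η` at `t`, `|t| ≤ T`, and some `u` in `[a, 2 a]`, `η ≥ δ`, there is a zero with `|Im ρ - t| ≤ R(δ, l)` and `Re ρ ≥ 1/2 + η - δ`.
* (3) So the zero density function is the large value function of the prime sums of length `T ^ C`: for every continuous `D ≥ 0` on `(1/2, 1]` the estimate `N(σ, T) ≤ T ^ (D(σ) + ε)` (for all `σ`, `ε` and large `T`) holds if and only if there are at most `T ^ (D(σ) + ε)` separated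
  points `t` in `[-T, T]` at which `|E| ≥ X ^ (σ - 1/2)` for some `u` in `[a, 2 a]` (for all `σ`, `ε`, small `l`, large `C` and large `a`).
* (4) In particular the density hypothesis (Q1, verbatim) is the case `D(σ) = 2 (1 - σ)`.
* (5) Unconditionally this holds with `D(σ) = 4 σ (1 - σ)` (from Carlson's density theorem).
-/

namespace Pool.Agent.Results.MP_4467b5_nt.LargeValuesOfPrimes

open Complex MeasureTheory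

/-- The Gaussian density of variance `2 s`. -/
noncomputable def G (s x : ℝ) : ℝ := Real.exp (-(x ^ 2 / (4 * s))) / Real.sqrt (4 * Real.pi * s)

/-- The error term of the prime sum near `n = e^u`, twisted with `n^(-i t)`. -/
noncomputable def E (s t u : ℝ) : ℂ :=
  (∑' n : ℕ, ((ArithmeticFunction.vonMangoldt n / Real.sqrt n * G s (Real.log n - u) : ℝ) : ℂ) * cexp (-(t * Real.log n * I))) -
    ∫ x : ℝ, (G s (x - u) : ℂ) * cexp ((1 / 2 - t * I) * x)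

/-- Some `|E s t u|` with `a ≤ u ≤ 2 a`, `s = l a`, is at least `X ^ η`, where `X = exp (2 a)`. -/
def Large (l a η t : ℝ) : Prop := ∃ u : ℝ, a ≤ u ∧ u ≤ 2 * a ∧ Real.exp (2 * a * η) ≤ ‖E (l * a) t u‖

/-- There are at most `B` points `t` with this property and `|t| ≤ T`, at distances at least one, where `T ^ C = X`. -/
def Few (l C a η B : ℝ) : Prop := ∀ F : Finset ℝ, (∀ x ∈ F, ∀ y ∈ F, x ≠ y → 1 ≤ |x - y|) →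
  (∀ t ∈ F, |t| ≤ Real.exp (2 * a / C) ∧ Large l a η t) → (F.card : ℝ) ≤ B

/-- The set of zeros of zeta has at most `B` elements, counted with multiplicity. -/
def AtMost (S : Set ℂ) (B : ℝ) : Prop := ∀ F : Finset ℂ, (∀ ρ ∈ F, ρ ∈ S) → ((∑ ρ ∈ F, analyticOrderNatAt riemannZeta ρ : ℕ) : ℝ) ≤ B

/-- The zeros with `Re ρ ≥ σ`, `0 < Im ρ ≤ T`. -/
def Zeros (σ T : ℝ) : Set ℂ := {ρ | riemannZeta ρ = 0 ∧ σ ≤ ρ.re ∧ 0 < ρ.im ∧ ρ.im ≤ T}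

/-- The density hypothesis (Q1). -/
def DensityHypothesis : Prop := ∀ ε : ℝ, 0 < ε → ∃ C T0 : ℝ, 0 < C ∧ ∀ T σ : ℝ, T0 ≤ T → 1 / 2 ≤ σ → σ ≤ 1 → AtMost (Zeros σ T) (C * T ^ (2 * (1 - σ) + ε))

open Pool.Agent.Q240 in
theorem result :
    (∀ δ l : ℝ, 0 < δ → 0 < l → l ≤ 1 → ∃ C0 : ℝ, ∀ C : ℝ, C0 ≤ C → ∃ A : ℝ, ∀ a : ℝ, A ≤ a → ∀ ρ : ℂ, riemannZeta ρ = 0 → 1 / 2 + δ ≤ ρ.re →
      |ρ.im| ≤ Real.exp (2 * a / C) → ∃ t : ℝ, |t - ρ.im| ≤ 1 ∧ Large l a (ρ.re - 1 / 2 - δ) t) ∧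
    (∀ δ : ℝ, 0 < δ → ∃ l0 : ℝ, 0 < l0 ∧ ∀ l : ℝ, 0 < l → l ≤ l0 → ∃ R C0 : ℝ, ∀ C : ℝ, C0 ≤ C → ∃ A : ℝ, ∀ a t η : ℝ, A ≤ a → |t| ≤ Real.exp (2 * a / C) →
      δ ≤ η → Large l a η t → ∃ ρ : ℂ, riemannZeta ρ = 0 ∧ |ρ.im - t| ≤ R ∧ 1 / 2 + η - δ ≤ ρ.re) ∧
    (∀ D : ℝ → ℝ, ContinuousOn D (Set.Ioc (1 / 2) 1) → (∀ σ : ℝ, 1 / 2 < σ → σ ≤ 1 → 0 ≤ D σ) →
      ((∀ σ ε : ℝ, 1 / 2 < σ → σ ≤ 1 → 0 < ε → ∃ T0 : ℝ, ∀ T : ℝ, T0 ≤ T → AtMost (Zeros σ T) (T ^ (D σ + ε))) ↔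
        ∀ σ ε : ℝ, 1 / 2 < σ → σ ≤ 1 → 0 < ε → ∃ l0 : ℝ, 0 < l0 ∧ ∀ l : ℝ, 0 < l → l ≤ l0 → ∃ C0 : ℝ, ∀ C : ℝ, C0 ≤ C → ∃ A : ℝ, ∀ a : ℝ, A ≤ a →
          Few l C a (σ - 1 / 2) (Real.exp (2 * a / C) ^ (D σ + ε)))) ∧
    (DensityHypothesis ↔ ∀ σ ε : ℝ, 1 / 2 < σ → σ ≤ 1 → 0 < ε → ∃ l0 : ℝ, 0 < l0 ∧ ∀ l : ℝ, 0 < l → l ≤ l0 → ∃ C0 : ℝ, ∀ C : ℝ, C0 ≤ C →
      ∃ A : ℝ, ∀ a : ℝ, A ≤ a → Few l C a (σ - 1 / 2) (Real.exp (2 * a / C) ^ (2 * (1 - σ) + ε))) ∧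
    ∀ σ ε : ℝ, 1 / 2 < σ → σ ≤ 1 → 0 < ε → ∃ l0 : ℝ, 0 < l0 ∧ ∀ l : ℝ, 0 < l → l ≤ l0 → ∃ C0 : ℝ, ∀ C : ℝ, C0 ≤ C → ∃ A : ℝ, ∀ a : ℝ, A ≤ a →
      Few l C a (σ - 1 / 2) (Real.exp (2 * a / C) ^ (4 * σ * (1 - σ) + ε)) := by
  refine ⟨fun δ l hδ hl hl1 => ?_, fun δ hδ => ?_, fun D hD hD0 => LV.l_dn D hD hD0, ?_, ?_⟩
  · obtain ⟨C0, h⟩ := LV.l_a δ l hδ hl hl1
    refine ⟨C0, fun C hC => ?_⟩
    obtain ⟨A, h2⟩ := h C hC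
    refine ⟨A, fun a ha ρ h0 hρ hT => ?_⟩
    have hρ1 : ρ.re < 1 := by
      by_contra hc
      exact riemannZeta_ne_zero_of_one_le_re (not_lt.1 hc) h0
    obtain ⟨t, u, h3, h4, h5, h6⟩ := h2 a ha ⟨ρ, h0, by linarith, hρ1⟩ hρ hT
    exact ⟨t, h3, u, h4, h5, h6⟩
  · obtain ⟨l0, hl0, -, h⟩ := LV.l_b δ hδ
    refine ⟨l0, hl0, fun l hl hl1 => ?_⟩
    obtain ⟨R, C0, -, h2⟩ := h l hl hl1
    refine ⟨R, C0, fun C hC => ?_⟩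
    obtain ⟨A, h3⟩ := h2 C hC
    refine ⟨A, fun a t η ha ht hη ⟨u, h4, h5, h6⟩ => ?_⟩
    obtain ⟨ρ, h7, h8⟩ := h3 a t u η ha ht h4 h5 hη h6
    exact ⟨ρ, ρ.2.1, h7, by linarith⟩
  · refine SD.dh_iff.trans ?_
    exact LV.l_dn (fun σ => 2 * (1 - σ)) (by fun_prop) (fun σ _ h1 => by linarith)
  · exact (LV.l_dn (fun σ => 4 * σ * (1 - σ)) (by fun_prop) (fun σ h0 h1 => by nlinarith)).1 SD.carl

end Pool.Agent.Results.MP_4467b5_nt.LargeValuesOfPrimes
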