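import Pool.Agent.Q97.UM.Base6
import Pool.Agent.Q210.UM.Wnd

set_option autoImplicit false

/-!
# MP_4467b5_nt: Selberg's density theorem relative to every Dirichlet polynomial

Unconditionally, there are `θ, c, C > 0` such that for all large `T`, all `N ≤ T ^ θ`, ALL complex numbers `b_1, …, b_N` and all
`σ ≥ 1/2`, with `B(t) = ∑ b_n n^(-1/2 - it)`: the sum of `|B(γ)|²` over the zeros `β + iγ` of zeta with `β ≥ σ`, `T < γ ≤ 2T`, is at most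
`C T ^ (-c (σ - 1/2)) (log T / 2π) ∫_T^{2T} |B|²`. The same in windows of length `R / log T`.
-/

namespace Pool.Agent.Results.MP_4467b5_nt.RelativeDensity

open Filter Topology MeasureTheory Complex

noncomputable section

/-- the Dirichlet polynomial with coefficients `b_1, …, b_N` on the critical line -/
def B (N : ℕ) (b : ℕ → ℂ) (t : ℝ) : ℂ := ∑ n ∈ Finset.Icc 1 N, b n * (n : ℂ) ^ (-(1 / 2 + t * I))

/-- the nontrivial zeros of zeta with ordinate in `(T, 2T]` and real part at least `σ` -/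
def zeros (σ T : ℝ) : Set ℂ := {s : ℂ | riemannZeta s = 0 ∧ 0 < s.re ∧ s.re < 1 ∧ T < s.im ∧ s.im ≤ 2 * T ∧ σ ≤ s.re}

/-- the sum of `|B|²` over the ordinates of these zeros, with multiplicity -/
def Sum (σ T : ℝ) (N : ℕ) (b : ℕ → ℂ) : ℝ := ∑ᶠ s ∈ zeros σ T, (analyticOrderNatAt riemannZeta s : ℝ) * ‖B N b s.im‖ ^ 2

theorem zeros_finite (σ T : ℝ) (h : 0 < T) : (zeros σ T).Finite := by
  refine (H370.zset_finite' H370.good_zeta T (2 * T) h).subset ?_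
  rintro s ⟨h1, h2, h3, h4, h5, h6⟩
  exact ⟨h2, h3, h4, h5, h1⟩

open Classical in
lemma sum_eq (σ T : ℝ) (h : 1 ≤ T) (N : ℕ) (b : ℕ → ℂ) :
    Sum σ T N b = ∑ s ∈ (H370.Zf riemannZeta T (2 * T)).filter (fun s => σ ≤ s.re),
      (Pool.Agent.Q97.UM.mz s : ℝ) * ‖Pool.Agent.Q97.UM.dp N b s.im‖ ^ 2 := by
  have hset : zeros σ T = (((H370.Zf riemannZeta T (2 * T)).filter (fun s => σ ≤ s.re) : Finset ℂ) : Set ℂ) := by
    ext s
    simp only [zeros, Finset.coe_filter, Set.mem_ofPred_eq, H370.mem_Zf H370.good_zeta h, H370.zset]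
    tauto
  unfold Sum
  rw [hset, finsum_mem_coe_finset]
  rfl

/-- **Selberg's density theorem relative to every Dirichlet polynomial** -/
theorem result :
    (∀ σ T : ℝ, 0 < T → (zeros σ T).Finite) ∧
    -- the sum over the zeros
    (∃ θ c C T₀ : ℝ, 0 < θ ∧ 0 < c ∧ ∀ T : ℝ, T₀ ≤ T → ∀ N : ℕ, (N : ℝ) ≤ T ^ θ → ∀ (b : ℕ → ℂ) (σ : ℝ), 1 / 2 ≤ σ →
      Sum σ T N b ≤ C * T ^ (-(c * (σ - 1 / 2))) * (Real.log T / (2 * Real.pi) * ∫ t in T..(2 * T), ‖B N b t‖ ^ 2)) ∧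
    -- the mass of the `t` with such a zero at distance at most `R / log T`
    (∃ θ c C T₀ : ℝ, 0 < θ ∧ 0 < c ∧ ∀ T : ℝ, T₀ ≤ T → ∀ R : ℝ, 1 ≤ R → R ≤ T → ∀ N : ℕ, (N : ℝ) ≤ T ^ θ → ∀ (b : ℕ → ℂ) (σ : ℝ),
      1 / 2 ≤ σ → ∫ t in {t : ℝ | T ≤ t ∧ t ≤ 2 * T ∧ ∃ s : ℂ, riemannZeta s = 0 ∧ σ ≤ s.re ∧ s.re < 1 ∧
        |s.im - t| ≤ R / Real.log T}, ‖B N b t‖ ^ 2 ≤ C * R * T ^ (-(c * (σ - 1 / 2))) * ∫ t in T..(2 * T), ‖B N b t‖ ^ 2) := by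
  refine ⟨zeros_finite, ?_, ?_⟩
  · obtain ⟨θ, c, C, hθ, hθ1, hc, hC, h⟩ := Pool.Agent.Q97.UM.b_DENS
    obtain ⟨T₀, hT₀⟩ := eventually_atTop.1 ((h.and Pool.Agent.Q97.UM.TN2_le).and (eventually_ge_atTop 3))
    refine ⟨θ, c, C * 16, T₀, hθ, hc, ?_⟩
    intro T hT N hN b σ hσ
    obtain ⟨⟨h1, h2⟩, h3⟩ := hT₀ T hT
    have h4 := h1 N hN b σ hσ
    have h5 := h2 N (hN.trans (Real.rpow_le_rpow_of_exponent_le (by linarith) hθ1)) b
    rw [sum_eq σ T (by linarith)]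
    refine h4.trans ?_
    have hTp : 0 ≤ T ^ (-(c * (σ - 1 / 2))) := Real.rpow_nonneg (by linarith) _
    calc _ = C * T ^ (-(c * (σ - 1 / 2))) * (Real.log T * (T * Pool.Agent.Q97.UM.N2 N b)) := by ring
      _ ≤ C * T ^ (-(c * (σ - 1 / 2))) * (16 * (Real.log T / (2 * Real.pi) *
          ∫ t in T..(2 * T), ‖Pool.Agent.Q97.UM.dp N b t‖ ^ 2)) := mul_le_mul_of_nonneg_left h5 (by positivity)
      _ = _ := by
        have : (∫ t in T..(2 * T), ‖B N b t‖ ^ 2) = ∫ t in T..(2 * T), ‖Pool.Agent.Q97.UM.dp N b t‖ ^ 2 := rfl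
        rw [this]; ring
  · obtain ⟨θ, c, C, hθ, hθ1, hc, hC, h⟩ := Pool.Agent.Q97.UM.b_TAIL
    obtain ⟨C₂, hC₂, h2⟩ := Pool.Agent.Q210.UM.t_WND θ c C hθ hθ1 hc hC h Pool.Agent.Q84.UM.t_MVL Pool.Agent.Q84.UM.t_DPM
      Pool.Agent.Q178.UM.ZF2.t_ZF2
    obtain ⟨T₀, hT₀⟩ := eventually_atTop.1 ((h2.and (Pool.Agent.Q97.UM.mv_rel (1 / 2) (by norm_num))).and (eventually_ge_atTop 3))
    refine ⟨min (θ / 2) (1 / 40), c / 2, C₂ * 2, T₀, by positivity, by positivity, ?_⟩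
    intro T hT R hR hRT N hN b σ hσ
    obtain ⟨⟨h3, h4⟩, h5⟩ := hT₀ T hT
    have hT0 : 0 < T := by linarith
    have hN1 : (N : ℝ) ≤ T ^ (θ / 2) := hN.trans (Real.rpow_le_rpow_of_exponent_le (by linarith) (min_le_left _ _))
    have hN2 : (N : ℝ) ≤ T ^ (1 / 40 : ℝ) := hN.trans (Real.rpow_le_rpow_of_exponent_le (by linarith) (min_le_right _ _))
    have hL : 0 < Real.log T := Real.log_pos (by linarith)
    have h6 := (h3 R hR hRT N hN1 b).1 ((σ - 1 / 2) * Real.log T) (mul_nonneg (by linarith) hL.le)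
    have h7 := h4 N hN2 b
    rw [abs_le] at h7
    set J := ∫ t in T..(2 * T), ‖Pool.Agent.Q97.UM.dp N b t‖ ^ 2 with hJ
    have hX0 : 0 ≤ T * Pool.Agent.Q97.UM.N2 N b := by unfold Pool.Agent.Q97.UM.N2; positivity
    have h8 : T * Pool.Agent.Q97.UM.N2 N b ≤ 2 * J := by linarith [h7.1]
    have hexp : Real.exp (-(c / 2 * ((σ - 1 / 2) * Real.log T))) = T ^ (-(c / 2 * (σ - 1 / 2))) := by
      rw [Real.rpow_def_of_pos hT0]
      congr 1; ring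
    rw [hexp] at h6
    have hTp : 0 ≤ T ^ (-(c / 2 * (σ - 1 / 2))) := Real.rpow_nonneg hT0.le _
    have hmono : ∫ t in {t : ℝ | T ≤ t ∧ t ≤ 2 * T ∧ ∃ s : ℂ, riemannZeta s = 0 ∧ σ ≤ s.re ∧ s.re < 1 ∧
        |s.im - t| ≤ R / Real.log T}, ‖B N b t‖ ^ 2 ≤
        ∫ t in {t : ℝ | T ≤ t ∧ t ≤ 2 * T ∧ ∃ ρ ∈ Pool.Agent.Q97.UM.Zw t (R / Real.log T),
          (σ - 1 / 2) * Real.log T / Real.log T ≤ |ρ.re - 1 / 2|}, ‖Pool.Agent.Q97.UM.dp N b t‖ ^ 2 := by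
      have hcont : Continuous (fun t : ℝ => ‖Pool.Agent.Q97.UM.dp N b t‖ ^ 2) :=
        ((Pool.Agent.Q84.UM.t_DPM.2.2 N b 0).2.norm).pow 2
      refine setIntegral_mono_set ?_ (Filter.Eventually.of_forall fun t => by positivity) (Filter.Eventually.of_forall ?_)
      · refine (hcont.continuousOn.integrableOn_compact (isCompact_Icc (a := T) (b := 2 * T))).mono_set ?_
        rintro t ⟨h9, h10, _⟩
        exact ⟨h9, h10⟩
      · rintro t ⟨h9, h10, s, hs1, hs2, hs3, hs4⟩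
        refine ⟨h9, h10, s, ⟨hs1, by linarith, hs3, hs4⟩, ?_⟩
        rw [mul_div_assoc, div_self hL.ne', mul_one, abs_of_nonneg (by linarith)]
        linarith
    refine hmono.trans (h6.trans ?_)
    calc C₂ * R * T ^ (-(c / 2 * (σ - 1 / 2))) * T * Pool.Agent.Q97.UM.N2 N b =
        C₂ * R * T ^ (-(c / 2 * (σ - 1 / 2))) * (T * Pool.Agent.Q97.UM.N2 N b) := by ring
      _ ≤ C₂ * R * T ^ (-(c / 2 * (σ - 1 / 2))) * (2 * J) := by gcongr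
      _ = _ := by
        have : (∫ t in T..(2 * T), ‖B N b t‖ ^ 2) = J := rfl
        rw [this]; ring

end

end Pool.Agent.Results.MP_4467b5_nt.RelativeDensity
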