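import Pool.Agent.Q240.SD.All

set_option autoImplicit false

/-!
# MP_4467b5_nt: the number `N(σ, T)` of the zeros is the number of large negative eigenvalues of Weil's form

Weil's quadratic form `W` has three parts (the pole, the archimedean place, the prime powers) and no zeros. For `g` in `L²[-a, a]` let `W_T g = W (ψ_T * g)`, `ψ_T x = T ψ (T x)`, where `ψ` is a fixed even bump function
(the smoothing at the scale `1 / T` cuts the zeros off at the height `T`). Let `X = exp (2 a) = T ^ C`, where `C` is large and fixed.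

* (1), (2) The number of directions in which `W_T` is below `-X ^ (σ - 1/2) N` is equal to `N(σ, T)` up to `T ^ δ` (in the exponents): `W_T ≥ -X ^ η N` on the common kernel of the functionals of the zeros with `Re ρ > 1/2 + η - δ`, `|Im ρ| ≤ T ^ (1 + δ)`;
  conversely, if `W_T ≥ -X ^ η N` on the common kernel of any `m` linear forms, then at most `C1 a² m` zeros, counted with multiplicity, have `|Re ρ - 1/2| ≥ η + δ` and `|Im ρ| ≤ T`.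
* (3) So every zero density theorem is a statement about the negative spectrum of Weil's form: for every continuous `D ≥ 0` on `(1/2, 1]` the estimate `N(σ, T) ≤ T ^ (D(σ) + ε)` (for all `σ`, `ε` and large `T`) holds if and only if
  `W_T ≥ -X ^ (σ - 1/2) N` on the common kernel of at most `T ^ (D(σ) + ε)` linear forms (for all `σ`, `ε`, `C ≥ C0(σ, ε)` and large `a`).
* (4) In particular the density hypothesis (Q1, verbatim) is the case `D(σ) = 2 (1 - σ)`.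
* (5) And no linear forms (`m = 0`) correspond to the strips without zeros.
* (6) Unconditionally (from Carlson's density theorem): for every `σ > 1/2` the form is `≥ -X ^ (σ - 1/2) N` on the common kernel of at most `T ^ (4 σ (1 - σ) + ε)` linear forms, a negligible part of all directions.
-/

namespace Pool.Agent.Results.MP_4467b5_nt.SpectralDensity

open Complex MeasureTheory Filter Topology

/-- The Mellin transform of `f` in the logarithmic variable, centred at `1/2`. -/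
noncomputable def M (f : ℝ → ℂ) (s : ℂ) : ℂ := ∫ x : ℝ, f x * cexp ((s - 1 / 2) * x)

/-- The square of the norm of `f` in `L²`. -/
noncomputable def N (f : ℝ → ℂ) : ℝ := ∫ x : ℝ, ‖f x‖ ^ 2

/-- The real part of the autocorrelation of `f`. -/
noncomputable def Corr (f : ℝ → ℂ) (t : ℝ) : ℝ := (∫ x : ℝ, f (x + t) * (starRingEnd ℂ) (f x)).re

/-- Weil's quadratic form: the pole, the archimedean place and the prime powers. -/
noncomputable def W (f : ℝ → ℂ) : ℝ :=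
  2 * (M f 1 * (starRingEnd ℂ) (M f 0)).re +
    1 / (2 * Real.pi) * (∫ t : ℝ, ((digamma (1 / 4 + t / 2 * I)).re - Real.log Real.pi) *
      ‖M f (1 / 2 + t * I)‖ ^ 2) -
    2 * ∑' m : ℕ, ArithmeticFunction.vonMangoldt m / Real.sqrt m * Corr f (Real.log m)

/-- The functions in `L²[-a, a]`. -/
def L2 (a : ℝ) (f : ℝ → ℂ) : Prop := MemLp f 2 volume ∧ ∀ x : ℝ, a < |x| → f x = 0

/-- An even nonnegative smooth function with support in `[-1, 1]` and integral one. -/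
def IsBump (ψ : ℝ → ℝ) : Prop := (∀ k : ℕ, ContDiff ℝ k ψ) ∧ (∀ x, 0 ≤ ψ x) ∧ (∀ x, ψ (-x) = ψ x) ∧ (∀ x, 1 ≤ |x| → ψ x = 0) ∧ ∫ x, ψ x = 1

/-- The convolution of `g` with `T ψ (T x)`. -/
noncomputable def Smooth (ψ : ℝ → ℝ) (T : ℝ) (g : ℝ → ℂ) (x : ℝ) : ℂ := ∫ y : ℝ, g y * ((T * ψ (T * (x - y)) : ℝ) : ℂ)

/-- `W_T g ≥ -X ^ η N g`, where `X = exp (2 a)` and `T ^ C = X`. -/
def Above (ψ : ℝ → ℝ) (C a η : ℝ) (g : ℝ → ℂ) : Prop := -(Real.exp (2 * a * η) * N g) ≤ W (Smooth ψ (Real.exp (2 * a / C)) g)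

/-- `W_T ≥ -X ^ η N` on the common kernel of some `m` linear forms. -/
def Index (ψ : ℝ → ℝ) (C a η : ℝ) (m : ℕ) : Prop := ∃ L : Fin m → (ℝ → ℂ) →ₗ[ℂ] ℂ, ∀ g : ℝ → ℂ, L2 a g → (∀ j, L j g = 0) → Above ψ C a η g

/-- The set of zeros of zeta has at most `B` elements, counted with multiplicity. -/
def AtMost (S : Set ℂ) (B : ℝ) : Prop := ∀ F : Finset ℂ, (∀ ρ ∈ F, ρ ∈ S) → ((∑ ρ ∈ F, analyticOrderNatAt riemannZeta ρ : ℕ) : ℝ) ≤ B

/-- The zeros with `Re ρ ≥ σ`, `0 < Im ρ ≤ T`. -/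
def Zeros (σ T : ℝ) : Set ℂ := {ρ | riemannZeta ρ = 0 ∧ σ ≤ ρ.re ∧ 0 < ρ.im ∧ ρ.im ≤ T}

/-- The density hypothesis (Q1). -/
def DensityHypothesis : Prop := ∀ ε : ℝ, 0 < ε → ∃ C T0 : ℝ, 0 < C ∧ ∀ T σ : ℝ, T0 ≤ T → 1 / 2 ≤ σ → σ ≤ 1 → AtMost (Zeros σ T) (C * T ^ (2 * (1 - σ) + ε))

open Pool.Agent.Q240.SD

lemma bump_iff {ψ : ℝ → ℝ} (h : IsBump ψ) : Pool.Agent.Q240.EW.Bump ψ := ⟨h.1, h.2.1, h.2.2.1, h.2.2.2.1, h.2.2.2.2⟩

lemma M_eq (f : ℝ → ℂ) (s : ℂ) : M f s = Pool.Agent.Y23.TT f (s - 1 / 2) := rfl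

lemma M_line (f : ℝ → ℂ) (t : ℝ) : M f (1 / 2 + t * I) = Pool.Agent.Y23.TT f (t * I) := by
  rw [M_eq]; congr 1; ring

lemma W_eq {b : ℝ} (hb : 0 < b) {f : ℝ → ℂ} (hf : Pool.Agent.Y23.Hd b f) : W f = Pool.Agent.Y23.QQ f := by
  rw [weil_tsum hb hf]
  unfold W Pool.Agent.Y23.DG
  have e1 : M f 1 = Pool.Agent.Y23.TT f (1 / 2) := by rw [M_eq]; congr 1; ring
  have e2 : M f 0 = Pool.Agent.Y23.TT f (-(1 / 2)) := by rw [M_eq]; congr 1; ring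
  rw [e1, e2]
  simp only [M_line, Corr]

lemma above_iff {ψ : ℝ → ℝ} (hψ : IsBump ψ) {C a η : ℝ} (ha : 0 < a) {g : ℝ → ℂ} (hg : L2 a g) :
    Above ψ C a η g ↔ -(Real.exp (2 * a * η) * Pool.Agent.Y23.N2 g) ≤ Pool.Agent.Y23.QQ (Sg ψ (Ht C a) g) := by
  have hT : 0 < Ht C a := Real.exp_pos _
  have h1 := ((a_cv ψ (Ht C a) (bump_iff hψ) hT).2.1 a g ha hg).hd
  have h2 : W (Smooth ψ (Real.exp (2 * a / C)) g) = Pool.Agent.Y23.QQ (Sg ψ (Ht C a) g) := W_eq (by positivity) h1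
  unfold Above
  rw [h2]
  exact Iff.rfl

lemma idx_iff {ψ : ℝ → ℝ} (hψ : IsBump ψ) {C a η B : ℝ} (ha : 0 < a) :
    (∃ m : ℕ, (m : ℝ) ≤ B ∧ Index ψ C a η m) ↔ Idx ψ C a η B := by
  constructor
  · rintro ⟨m, hm, L, hL⟩
    exact ⟨m, L, hm, fun g hg hj => (above_iff hψ ha hg).1 (hL g hg hj)⟩
  · rintro ⟨m, L, hm, hL⟩
    exact ⟨m, hm, L, fun g hg hj => (above_iff hψ ha hg).2 (hL g hg hj)⟩

lemma large {P : ℝ → Prop} : (∃ A : ℝ, ∀ a : ℝ, A ≤ a → P a) ↔ ∃ A : ℝ, ∀ a : ℝ, A ≤ a → 0 < a → P a := by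
  constructor
  · rintro ⟨A, h⟩
    exact ⟨A, fun a ha _ => h a ha⟩
  · rintro ⟨A, h⟩
    exact ⟨max A 1, fun a ha => h a ((le_max_left _ _).trans ha) (lt_of_lt_of_le one_pos ((le_max_right _ _).trans ha))⟩

theorem result : ∀ ψ : ℝ → ℝ, IsBump ψ →
    (∀ δ : ℝ, 0 < δ → ∃ C0 : ℝ, ∀ C : ℝ, C0 ≤ C → ∃ A : ℝ, ∀ a η : ℝ, A ≤ a → 0 ≤ η → η ≤ 1 / 2 → ∀ g : ℝ → ℂ, L2 a g →
      (∀ ρ : ℂ, riemannZeta ρ = 0 → 1 / 2 + max (η - δ) 0 < ρ.re → |ρ.im| ≤ Real.exp (2 * a / C) ^ (1 + δ) → M g ρ = 0) → Above ψ C a η g) ∧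
    (∀ δ : ℝ, 0 < δ → δ ≤ 1 / 2 → ∃ C0 C1 : ℝ, ∀ C : ℝ, C0 ≤ C → ∃ A : ℝ, ∀ a η : ℝ, A ≤ a → 0 ≤ η → ∀ m : ℕ, Index ψ C a η m →
      AtMost {ρ | riemannZeta ρ = 0 ∧ 0 < ρ.re ∧ ρ.re < 1 ∧ η + δ ≤ |ρ.re - 1 / 2| ∧ |ρ.im| ≤ Real.exp (2 * a / C)} (C1 * a ^ 2 * m)) ∧
    (∀ D : ℝ → ℝ, ContinuousOn D (Set.Ioc (1 / 2) 1) → (∀ σ : ℝ, 1 / 2 < σ → σ ≤ 1 → 0 ≤ D σ) →
      ((∀ σ ε : ℝ, 1 / 2 < σ → σ ≤ 1 → 0 < ε → ∃ T0 : ℝ, ∀ T : ℝ, T0 ≤ T → AtMost (Zeros σ T) (T ^ (D σ + ε))) ↔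
        ∀ σ ε : ℝ, 1 / 2 < σ → σ ≤ 1 → 0 < ε → ∃ C0 : ℝ, ∀ C : ℝ, C0 ≤ C → ∃ A : ℝ, ∀ a : ℝ, A ≤ a →
          ∃ m : ℕ, (m : ℝ) ≤ Real.exp (2 * a / C) ^ (D σ + ε) ∧ Index ψ C a (σ - 1 / 2) m)) ∧
    (DensityHypothesis ↔ ∀ σ ε : ℝ, 1 / 2 < σ → σ ≤ 1 → 0 < ε → ∃ C0 : ℝ, ∀ C : ℝ, C0 ≤ C → ∃ A : ℝ, ∀ a : ℝ, A ≤ a →
      ∃ m : ℕ, (m : ℝ) ≤ Real.exp (2 * a / C) ^ (2 * (1 - σ) + ε) ∧ Index ψ C a (σ - 1 / 2) m) ∧
    (∀ θ : ℝ, 1 / 2 ≤ θ → θ < 1 → ((∀ ρ : ℂ, riemannZeta ρ = 0 → 0 < ρ.re → ρ.re ≤ θ) ↔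
      ∀ δ : ℝ, 0 < δ → ∃ C0 : ℝ, ∀ C : ℝ, C0 ≤ C → ∃ A : ℝ, ∀ a : ℝ, A ≤ a → ∀ g : ℝ → ℂ, L2 a g → Above ψ C a (θ - 1 / 2 + δ) g)) ∧
    ∀ σ ε : ℝ, 1 / 2 < σ → σ ≤ 1 → 0 < ε → ∃ C0 : ℝ, ∀ C : ℝ, C0 ≤ C → ∃ A : ℝ, ∀ a : ℝ, A ≤ a →
      ∃ m : ℕ, (m : ℝ) ≤ Real.exp (2 * a / C) ^ (4 * σ * (1 - σ) + ε) ∧ Index ψ C a (σ - 1 / 2) m := by
  intro ψ hψ
  refine ⟨fun δ hδ => ?_, fun δ hδ hδ1 => ?_, fun D hD hD0 => ?_, ?_, fun θ hθ hθ1 => ?_, fun σ ε hσ hσ1 hε => ?_⟩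
  · obtain ⟨C0, h⟩ := a_up ψ δ (bump_iff hψ) hδ
    refine ⟨C0, fun C hC => ?_⟩
    obtain ⟨A, h2⟩ := h C hC
    refine ⟨max A 1, fun a η ha hη hη1 g hg hz => ?_⟩
    have ha0 : 0 < a := lt_of_lt_of_le one_pos ((le_max_right _ _).trans ha)
    exact (above_iff hψ ha0 hg).2 (h2 a η ((le_max_left _ _).trans ha) hη hη1 g hg fun ρ hρ hT => hz ρ ρ.2.1 (by linarith) hT)
  · obtain ⟨C0, C1, -, h⟩ := a_dw ψ δ (bump_iff hψ) hδ hδ1
    refine ⟨C0, C1, fun C hC => ?_⟩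
    obtain ⟨A, h2⟩ := h C hC
    refine ⟨max A 1, fun a η ha hη m ⟨L, hL⟩ F hF => ?_⟩
    have ha0 : 0 < a := lt_of_lt_of_le one_pos ((le_max_right _ _).trans ha)
    refine h2 a η ((le_max_left _ _).trans ha) hη m L (fun g hg hj => (above_iff hψ ha0 hg).1 (hL g hg hj)) F fun ρ hρ => ?_
    obtain ⟨k0, k1, k2, k3, k4⟩ := hF ρ hρ
    exact ⟨⟨k0, k1, k2⟩, k3, k4⟩
  · refine (a_dn ψ (bump_iff hψ) D hD hD0).trans ?_
    refine forall_congr' fun σ => forall_congr' fun ε => forall_congr' fun _ => forall_congr' fun _ => forall_congr' fun _ => exists_congr fun C0 =>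
      forall_congr' fun C => forall_congr' fun _ => ?_
    refine (large.trans ?_).trans large.symm
    exact exists_congr fun A => forall_congr' fun a => forall_congr' fun _ => forall_congr' fun ha => (idx_iff hψ ha).symm
  · refine (dh_idx a_dn (bump_iff hψ)).trans ?_
    refine forall_congr' fun σ => forall_congr' fun ε => forall_congr' fun _ => forall_congr' fun _ => forall_congr' fun _ => exists_congr fun C0 =>
      forall_congr' fun C => forall_congr' fun _ => ?_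
    refine (large.trans ?_).trans large.symm
    exact exists_congr fun A => forall_congr' fun a => forall_congr' fun _ => forall_congr' fun ha => (idx_iff hψ ha).symm
  · refine (thin_iff a_up a_dw (bump_iff hψ) hθ hθ1).trans ?_
    refine forall_congr' fun δ => forall_congr' fun _ => exists_congr fun C0 => forall_congr' fun C => forall_congr' fun _ => ?_
    refine (large.trans ?_).trans large.symm
    exact exists_congr fun A => forall_congr' fun a => forall_congr' fun _ => forall_congr' fun ha => forall_congr' fun g => forall_congr' fun hg =>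
      (above_iff hψ ha hg).symm
  · obtain ⟨C0, h⟩ := carl_idx a_dn (bump_iff hψ) σ ε hσ hσ1 hε
    refine ⟨C0, fun C hC => ?_⟩
    obtain ⟨A, h2⟩ := h C hC
    refine ⟨max A 1, fun a ha => ?_⟩
    have ha0 : 0 < a := lt_of_lt_of_le one_pos ((le_max_right _ _).trans ha)
    exact (idx_iff hψ ha0).2 (h2 a ((le_max_left _ _).trans ha))

end Pool.Agent.Results.MP_4467b5_nt.SpectralDensity
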